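import Pool.Agent.PakG

set_option autoImplicit false
set_option linter.unusedSectionVars false

namespace Pool.Agent.Results.MP_d1aba8_pr.TypicalStartFails

open Filter Topology Finset

section defs

variable {S : Type} [Fintype S] [DecidableEq S] (Q : Matrix S S ℝ) (ϖ : S → ℝ)

/-- `Q` is the generator of a continuous-time Markov chain. -/
def IsGenerator : Prop := (∀ x y, x ≠ y → 0 ≤ Q x y) ∧ ∀ x, ∑ y, Q x y = 0

/-- The chain is irreducible. -/
def Irred : Prop := ∀ x y, Relation.ReflTransGen (fun a b => 0 < Q a b) x y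

/-- `ϖ` is the stationary distribution. -/
def IsStationary : Prop := (∀ x, 0 ≤ ϖ x) ∧ ∑ x, ϖ x = 1 ∧ ∀ y, ∑ x, ϖ x * Q x y = 0

/-- `P_x(X_t = y) = exp(t Q)(x,y)` -/
noncomputable def kern (t : ℝ) : Matrix S S ℝ := NormedSpace.exp (t • Q)

/-- total variation distance `‖P_x(X_t ∈ ·) - ϖ‖` (half the `ℓ¹` distance) -/
noncomputable def dist (x : S) (t : ℝ) : ℝ := (1 / 2) * ∑ y, |kern Q t x y - ϖ y|

/-- `τ_x = inf {t ≥ 0 : ‖P_x(X_t ∈ ·) - ϖ‖ ≤ 1/4}` -/
noncomputable def tau (x : S) : ℝ := sInf {t : ℝ | 0 ≤ t ∧ dist Q ϖ x t ≤ 1 / 4}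

open Classical in
/-- `ϖ(A)` -/
noncomputable def mass (A : Set S) : ℝ := ∑ x, if x ∈ A then ϖ x else 0

/-- `m` is a median of `τ_x` when `x` has law `ϖ`. -/
def IsMedian (m : ℝ) : Prop :=
  1 / 2 ≤ mass ϖ {x | tau Q ϖ x ≤ m} ∧ 1 / 2 ≤ mass ϖ {x | m ≤ tau Q ϖ x}

/-- spectral gap: the smallest real part of a nonzero (complex) eigenvalue of `-Q` -/
noncomputable def gap : ℝ :=
  sInf {l : ℝ | ∃ z : ℂ, z ≠ 0 ∧ z.re = l ∧
    ∃ f : S → ℂ, f ≠ 0 ∧ ∀ x, ∑ y, -(Q x y : ℂ) * f y = z * f x}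

/-- relaxation time -/
noncomputable def tau2 : ℝ := 1 / gap Q

end defs

/-- the uniform law -/
noncomputable def unif {n : ℕ} (π : Pak.Params n) : Pak.VV π → ℝ :=
  fun _ => 1 / Fintype.card (Pak.VV π)

lemma cardpos {n : ℕ} (π : Pak.Params n) : (0 : ℝ) < Fintype.card (Pak.VV π) := by
  exact_mod_cast (Fintype.card_pos : 0 < Fintype.card (Pak.VV π))

lemma dist_eq {n : ℕ} (π : Pak.Params n) (x : Pak.VV π) (t : ℝ) :
    dist (Pak.QQ π) (unif π) x t = Pak.ctv π t x := rfl

lemma tau_eq {n : ℕ} (π : Pak.Params n) (x : Pak.VV π) :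
    tau (Pak.QQ π) (unif π) x = Pak.taus π := by
  unfold tau Pak.taus
  simp_rw [dist_eq, Pak.ctv_eq π _ x]

lemma mass_empty {n : ℕ} (π : Pak.Params n) : mass (unif π) ∅ = 0 := by
  unfold mass
  simp

lemma mass_univ {n : ℕ} (π : Pak.Params n) : mass (unif π) Set.univ = 1 := by
  unfold mass unif
  simp only [Set.mem_univ, if_true]
  rw [sum_const, card_univ, nsmul_eq_mul]
  have hV := cardpos π
  field_simp

lemma median_taus {n : ℕ} (π : Pak.Params n) :
    IsMedian (Pak.QQ π) (unif π) (Pak.taus π) := by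
  unfold IsMedian
  simp_rw [tau_eq]
  have : {x : Pak.VV π | Pak.taus π ≤ Pak.taus π} = Set.univ := by
    ext x; simp
  rw [this, mass_univ]
  norm_num

lemma gap_ge {n : ℕ} (π : Pak.Params n) (hn : 1 ≤ n) : 1 / 3 ≤ gap (Pak.QQ π) := by
  unfold gap
  apply le_csInf
  · refine ⟨Pak.lq π, (Pak.lq π : ℂ), ?_, by simp, fun x => (Pak.ev π x : ℂ), ?_, ?_⟩
    · exact_mod_cast (Pak.lq_pos π).ne'
    · intro h
      apply Pak.ev_ne π
      funext x
      have := congrFun h x
      simpa using this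
    · intro x
      have h := Pak.ev_Q π x
      have h2 : ((∑ y, -(Pak.QQ π x y) * Pak.ev π y : ℝ) : ℂ) = ((Pak.lq π * Pak.ev π x : ℝ) : ℂ) := by
        rw [h]
      push_cast at h2
      exact h2
  · rintro l ⟨z, hz, rfl, f, hf, hlf⟩
    exact Pak.Q_eig_complex π hn f hf z hz hlf

lemma QQ_gen {n : ℕ} (π : Pak.Params n) : IsGenerator (Pak.QQ π) := by
  classical
  constructor
  · intro x y hxy
    unfold Pak.QQ
    rw [Matrix.smul_apply, Matrix.sub_apply, Matrix.one_apply_ne hxy, sub_zero, smul_eq_mul]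
    have h := Pak.PP_nonneg π 1 x y
    rw [pow_one] at h
    positivity
  · intro x
    unfold Pak.QQ
    simp only [Matrix.smul_apply, Matrix.sub_apply, smul_eq_mul]
    rw [← mul_sum, sum_sub_distrib]
    have h := Pak.PP_row π 1 x
    rw [pow_one] at h
    rw [h]
    simp [Matrix.one_apply]

lemma QQ_pos {n : ℕ} (π : Pak.Params n) (x y : Pak.VV π) (h : (Pak.GG π).Adj x y) :
    0 < Pak.QQ π x y := by
  classical
  unfold Pak.QQ
  rw [Matrix.smul_apply, Matrix.sub_apply, Matrix.one_apply_ne h.ne, sub_zero, smul_eq_mul,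
    Pak.PP_apply', if_neg h.ne, if_pos h, zero_add]
  have := Pak.cc_pos π
  positivity

lemma QQ_irred {n : ℕ} (π : Pak.Params n) : Irred (Pak.QQ π) := by
  intro x y
  have h := (Pak.GG_conn π).preconnected x y
  rw [SimpleGraph.reachable_iff_reflTransGen] at h
  exact Relation.ReflTransGen.mono (fun a b hab => QQ_pos π a b hab) x y h

lemma QQ_stat {n : ℕ} (π : Pak.Params n) : IsStationary (Pak.QQ π) (unif π) := by
  classical
  have hV := cardpos π
  refine ⟨fun x => by unfold unif; positivity, ?_, ?_⟩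
  · unfold unif
    rw [sum_const, card_univ, nsmul_eq_mul]
    field_simp
  · intro y
    unfold unif
    rw [← mul_sum]
    have h : ∑ x, Pak.QQ π x y = ∑ x, Pak.QQ π y x := by
      apply sum_congr rfl
      intro x _
      unfold Pak.QQ
      simp only [Matrix.smul_apply, Matrix.sub_apply, smul_eq_mul]
      rw [Pak.PP_symm, Matrix.one_apply, Matrix.one_apply]
      simp only [eq_comm]
    rw [h, (QQ_gen π).2 y, mul_zero]

/-- **Main theorem.** It is false that for every sequence of finite irreducible continuous-time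
chains with `τ/τ₂ → ∞` and every `ε ∈ (0,1)` both typical-start cutoff limits hold. -/
theorem result :
    ¬ (∀ (S : ℕ → Type) [∀ n, Fintype (S n)] [∀ n, DecidableEq (S n)]
        (Q : ∀ n, Matrix (S n) (S n) ℝ) (ϖ : ∀ n, S n → ℝ) (τ : ℕ → ℝ),
        (∀ n, IsGenerator (Q n)) → (∀ n, Irred (Q n)) → (∀ n, IsStationary (Q n) (ϖ n)) →
        (∀ n, IsMedian (Q n) (ϖ n) (τ n)) →
        Tendsto (fun n => τ n / tau2 (Q n)) atTop atTop →
        ∀ ε : ℝ, 0 < ε → ε < 1 →
          Tendsto (fun n => mass (ϖ n) {x | 1 - ε < dist (Q n) (ϖ n) x ((1 - ε) * τ n)})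
            atTop (𝓝 1) ∧
          Tendsto (fun n => mass (ϖ n) {x | dist (Q n) (ϖ n) x ((1 + ε) * τ n) < ε})
            atTop (𝓝 1)) := by
  classical
  intro H
  have h100 : ∀ n : ℕ, 100 ≤ n + 100 := fun n => by omega
  have h2 := (H (fun n => Pak.VV (Pak.par n)) (fun n => Pak.QQ (Pak.par n))
    (fun n => unif (Pak.par n)) (fun n => Pak.taus (Pak.par n)) (fun n => QQ_gen _)
    (fun n => QQ_irred _) (fun n => QQ_stat _) (fun n => median_taus _)
    (by
      have h3 : Tendsto (fun n : ℕ => (n : ℝ) / 60) atTop atTop :=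
        tendsto_natCast_atTop_atTop.atTop_div_const (by norm_num)
      apply tendsto_atTop_mono _ h3
      intro n
      have h4 := Pak.ratio_ge (h100 n) (Pak.taus_ge (Pak.par n) (h100 n))
        (gap_ge (Pak.par n) (by omega))
      unfold tau2
      push_cast at h4
      linarith)
    (1 / 2000) (by norm_num) (by norm_num)).1
  have h3 : ∀ n : ℕ, mass (unif (Pak.par n)) {x | 1 - 1 / 2000 <
      dist (Pak.QQ (Pak.par n)) (unif (Pak.par n)) x
      ((1 - 1 / 2000) * Pak.taus (Pak.par n))} = 0 := by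
    intro n
    have : {x | 1 - 1 / 2000 < dist (Pak.QQ (Pak.par n)) (unif (Pak.par n)) x
      ((1 - 1 / 2000) * Pak.taus (Pak.par n))} = ∅ := by
      ext x
      simp only [Set.mem_ofPred_eq, Set.mem_empty_iff_false, iff_false, not_lt]
      rw [dist_eq]
      exact Pak.ctv_mid (Pak.par n) (h100 n) (Pak.taus_ge (Pak.par n) (h100 n)) x
    rw [this, mass_empty]
  simp_rw [h3] at h2
  have h4 := tendsto_nhds_unique h2 tendsto_const_nhds
  norm_num at h4

end Pool.Agent.Results.MP_d1aba8_pr.TypicalStartFails
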